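import Mathlib

/-!
# A hyperspace `S(X)` which is a `σ`-space and not an `ℵ`-space
-/

namespace Pool.Agent.Results.MP_81fb9f_gt.NotAleph

open Set Filter Topology

universe u

/-- A convergent sequence of `X`: a set `{x_n : n ∈ ℕ} ∪ {x}` with `x_n → x`. -/
def IsConvSeq {X : Type u} [TopologicalSpace X] (C : Set X) : Prop :=
  ∃ (s : ℕ → X) (l : X), Tendsto s atTop (𝓝 l) ∧ C = insert l (Set.range s)

/-- The set `S(X)` of all nonempty closed subsets of `X` which are unions of finitely many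
convergent sequences of `X`. -/
def HS (X : Type u) [TopologicalSpace X] : Type u :=
  {S : Set X // S.Nonempty ∧ IsClosed S ∧
    ∃ 𝒞 : Set (Set X), 𝒞.Finite ∧ (∀ C ∈ 𝒞, IsConvSeq C) ∧ S = ⋃₀ 𝒞}

/-- The set `⟨P_1, …, P_r⟩` of all `S` in `S(X)` which are covered by the sets `P_i` and meet
each of them. -/
def bracket {X : Type u} [TopologicalSpace X] (P : Set (Set X)) : Set (HS X) :=
  {S | S.1 ⊆ ⋃₀ P ∧ ∀ A ∈ P, (S.1 ∩ A).Nonempty}

/-- The Vietoris topology of `S(X)`. -/
instance {X : Type u} [TopologicalSpace X] : TopologicalSpace (HS X) :=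
  TopologicalSpace.generateFrom
    {W | ∃ P : Set (Set X), P.Finite ∧ (∀ A ∈ P, IsOpen A) ∧ W = bracket P}

/-- The family `P` of subsets of `Y` is locally finite: each point has a neighbourhood which meets
only finitely many members of `P`. -/
def LocFin {Y : Type u} [TopologicalSpace Y] (P : Set (Set Y)) : Prop :=
  ∀ y : Y, ∃ U ∈ 𝓝 y, {A ∈ P | (A ∩ U).Nonempty}.Finite

/-- `P` is a network of `Y`. -/
def IsNetwork {Y : Type u} [TopologicalSpace Y] (P : Set (Set Y)) : Prop :=
  ∀ (y : Y) (U : Set Y), IsOpen U → y ∈ U → ∃ A ∈ P, y ∈ A ∧ A ⊆ U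

/-- `P` is a `k`-network of `Y`. -/
def IsKNetwork {Y : Type u} [TopologicalSpace Y] (P : Set (Set Y)) : Prop :=
  ∀ K U : Set Y, IsCompact K → IsOpen U → K ⊆ U → ∃ F ⊆ P, F.Finite ∧ K ⊆ ⋃₀ F ∧ ⋃₀ F ⊆ U

/-- A `σ`-space: a regular (Hausdorff) space with a `σ`-locally finite network. -/
def IsSigmaSpace (Y : Type u) [TopologicalSpace Y] : Prop :=
  T3Space Y ∧ ∃ P : ℕ → Set (Set Y), (∀ n, LocFin (P n)) ∧ IsNetwork (⋃ n, P n)

/-- An `ℵ`-space: a regular (Hausdorff) space with a `σ`-locally finite `k`-network. -/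
def IsAlephSpace (Y : Type u) [TopologicalSpace Y] : Prop :=
  T3Space Y ∧ ∃ P : ℕ → Set (Set Y), (∀ n, LocFin (P n)) ∧ IsKNetwork (⋃ n, P n)

/-! ### General facts -/

section General

variable {X : Type u} [TopologicalSpace X]

theorem isOpen_subset {U : Set X} (hU : IsOpen U) : IsOpen {S : HS X | S.1 ⊆ U} := by
  apply TopologicalSpace.isOpen_generateFrom_of_mem
  refine ⟨{U}, Set.finite_singleton _, by rintro _ rfl; exact hU, ?_⟩
  ext S
  simp only [bracket, Set.sUnion_singleton, Set.mem_singleton_iff, forall_eq]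
  constructor
  · intro h
    refine ⟨h, ?_⟩
    rw [Set.inter_eq_self_of_subset_left h]
    exact S.2.1
  · exact fun h => h.1

theorem isOpen_meets {U : Set X} (hU : IsOpen U) : IsOpen {S : HS X | (S.1 ∩ U).Nonempty} := by
  apply TopologicalSpace.isOpen_generateFrom_of_mem
  refine ⟨{Set.univ, U}, Set.toFinite _, ?_, ?_⟩
  · rintro A (rfl | rfl)
    · exact isOpen_univ
    · exact hU
  · ext S
    constructor
    · intro h
      refine ⟨fun x _ => ⟨Set.univ, Or.inl rfl, Set.mem_univ x⟩, ?_⟩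
      rintro A (rfl | rfl)
      · rw [Set.inter_univ]
        exact S.2.1
      · exact h
    · exact fun h => h.2 U (Or.inr rfl)

theorem isCompact_coe (S : HS X) : IsCompact S.1 := by
  obtain ⟨-, -, 𝒞, hfin, hC, hS⟩ := S.2
  rw [hS]
  refine hfin.isCompact_sUnion fun C hC' => ?_
  obtain ⟨s, l, hs, rfl⟩ := hC C hC'
  exact hs.isCompact_insert_range

/-- The one-point sets. -/
def sing [T1Space X] (x : X) : HS X :=
  ⟨{x}, Set.singleton_nonempty x, isClosed_singleton, {{x}}, Set.finite_singleton _, by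
    rintro _ rfl
    exact ⟨fun _ => x, x, tendsto_const_nhds, by simp⟩, by simp⟩

theorem continuous_sing [T1Space X] : Continuous (sing : X → HS X) := by
  apply continuous_generateFrom_iff.2
  rintro _ ⟨P, hP, hPo, rfl⟩
  have h : sing ⁻¹' bracket P = {x : X | x ∈ ⋃₀ P} ∩ ⋂ A ∈ P, A := by
    ext x
    change (({x} : Set X) ⊆ ⋃₀ P ∧ ∀ A ∈ P, (({x} : Set X) ∩ A).Nonempty) ↔ _
    simp only [Set.singleton_subset_iff, Set.mem_inter_iff, Set.mem_iInter,
      Set.singleton_inter_nonempty]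
    rfl
  rw [h]
  exact (isOpen_sUnion hPo).inter (hP.isOpen_biInter hPo)

end General

/-! ### The space -/

/-- The nodes of the Cantor tree, and its branches. The nodes are `Sum.inr`, the branches are
`Sum.inl`. -/
def X : Type := (ℕ → Bool) ⊕ List Bool

/-- The nodes of a branch. -/
def a (b : ℕ → Bool) (n : ℕ) : List Bool := List.ofFn fun i : Fin n => b i

theorem a_eq {b b' : ℕ → Bool} {n m : ℕ} (h : a b n = a b' m) : n = m ∧ ∀ i < n, b i = b' i := by
  have h1 : n = m := by
    have := congrArg List.length h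
    simpa [a] using this
  subst h1
  refine ⟨rfl, fun i hi => ?_⟩
  have h2 := List.ofFn_injective h
  exact congrFun h2 ⟨i, hi⟩

theorem a_inj (b : ℕ → Bool) : Function.Injective (a b) := fun _ _ h => (a_eq h).1

theorem ad {b b' : ℕ → Bool} (h : b ≠ b') : ∀ᶠ n in atTop, ∀ m, a b n ≠ a b' m := by
  obtain ⟨i, hi⟩ := Function.ne_iff.1 h
  filter_upwards [eventually_gt_atTop i] with n hn m hm
  exact hi ((a_eq hm).2 i hn)

instance : TopologicalSpace X where
  IsOpen U := ∀ b : ℕ → Bool, (Sum.inl b : (ℕ → Bool) ⊕ List Bool) ∈ U →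
    ∀ᶠ n in atTop, (Sum.inr (a b n) : (ℕ → Bool) ⊕ List Bool) ∈ U
  isOpen_univ := fun b _ => Filter.Eventually.of_forall fun n => Set.mem_univ _
  isOpen_inter U V hU hV := fun b hb => (hU b hb.1).and (hV b hb.2)
  isOpen_sUnion S hS := by
    rintro b ⟨U, hU, hb⟩
    exact (hS U hU b hb).mono fun n hn => ⟨U, hU, hn⟩

/-- A branch, as a point of the space. -/
def br (b : ℕ → Bool) : X := Sum.inl b

/-- A node, as a point of the space. -/
def nd (q : List Bool) : X := Sum.inr q

theorem isOpen_iff (U : Set X) : IsOpen U ↔ ∀ b, br b ∈ U → ∀ᶠ n in atTop, nd (a b n) ∈ U :=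
  Iff.rfl

theorem br_inj {b b' : ℕ → Bool} : br b = br b' ↔ b = b' := Sum.inl_injective.eq_iff

theorem nd_inj {q q' : List Bool} : nd q = nd q' ↔ q = q' := Sum.inr_injective.eq_iff

theorem br_ne_nd (b : ℕ → Bool) (q : List Bool) : br b ≠ nd q := Sum.inl_ne_inr

theorem X.cases (x : X) : (∃ b, x = br b) ∨ ∃ q, x = nd q := by
  rcases x with b | q
  · exact Or.inl ⟨b, rfl⟩
  · exact Or.inr ⟨q, rfl⟩

/-- A closed set with finitely many branches has a neighbourhood base of clopen sets. -/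
theorem exists_clopen {S U : Set X} (hS : IsClosed S) (hfin : {b | br b ∈ S}.Finite)
    (hU : IsOpen U) (hSU : S ⊆ U) : ∃ V, IsClopen V ∧ S ⊆ V ∧ V ⊆ U := by
  refine ⟨S ∪ {x | x ∈ U ∧ ∃ b ∈ {b | br b ∈ S}, ∃ n, x = nd (a b n)}, ⟨?_, ?_⟩,
    Set.subset_union_left, Set.union_subset hSU fun x hx => hx.1⟩
  · rw [← isOpen_compl_iff, isOpen_iff]
    intro b hb
    have hbS : br b ∉ S := fun h => hb (Or.inl h)
    have h1 := (isOpen_iff _).1 hS.isOpen_compl b hbS
    have h2 : ∀ᶠ n in atTop, ∀ b' ∈ {b | br b ∈ S}, ∀ m, a b n ≠ a b' m :=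
      (hfin.eventually_all).2 fun b' hb' => ad (fun h => hbS (h ▸ hb'))
    filter_upwards [h1, h2] with n hn1 hn2
    rintro (h | ⟨-, b', hb', m, h⟩)
    · exact hn1 h
    · exact hn2 b' hb' m (nd_inj.1 h)
  · rw [isOpen_iff]
    intro b hb
    have hbS : br b ∈ S := by
      rcases hb with h | ⟨-, b', -, m, h⟩
      · exact h
      · exact absurd h (br_ne_nd _ _)
    filter_upwards [(isOpen_iff _).1 hU b (hSU hbS)] with n hn
    exact Or.inr ⟨hn, b, hbS, n, rfl⟩

theorem isClosed_singleton' (x : X) : IsClosed ({x} : Set X) := by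
  rw [← isOpen_compl_iff, isOpen_iff]
  intro b hb
  rcases X.cases x with ⟨b', rfl⟩ | ⟨q, rfl⟩
  · exact Filter.Eventually.of_forall fun n h => br_ne_nd _ _ h.symm
  · filter_upwards [eventually_gt_atTop q.length] with n hn h
    have h1 : a b n = q := nd_inj.1 h
    have : n = q.length := by
      rw [← h1]
      simp [a]
    omega

instance : T1Space X := ⟨isClosed_singleton'⟩

theorem exists_clopen_point {x : X} {U : Set X} (hU : IsOpen U) (hx : x ∈ U) :
    ∃ V, IsClopen V ∧ x ∈ V ∧ V ⊆ U := by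
  obtain ⟨V, h1, h2, h3⟩ := exists_clopen (isClosed_singleton' x) (by
    refine Set.Subsingleton.finite ?_
    intro b hb b' hb'
    have h1 : br b = x := hb
    have h2 : br b' = x := hb'
    exact br_inj.1 (h1.trans h2.symm)) hU (Set.singleton_subset_iff.2 hx)
  exact ⟨V, h1, h2 rfl, h3⟩

instance : T2Space X := by
  refine ⟨fun x y hxy => ?_⟩
  obtain ⟨V, h1, h2, h3⟩ := exists_clopen_point (isClosed_singleton' y).isOpen_compl
    (show x ∈ ({y} : Set X)ᶜ from hxy)
  exact ⟨V, Vᶜ, h1.isOpen, h1.compl.isOpen, h2, fun h => h3 h rfl, disjoint_compl_right⟩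

theorem finite_branches {S : Set X} (hS : IsCompact S) : {b | br b ∈ S}.Finite := by
  obtain ⟨t, ht⟩ := hS.elim_finite_subcover (fun b : ℕ → Bool => insert (br b) (Set.range nd)) (by
    intro b
    rw [isOpen_iff]
    intro b' _
    exact Filter.Eventually.of_forall fun n => Or.inr ⟨_, rfl⟩) (by
    intro x _
    rcases X.cases x with ⟨b, rfl⟩ | ⟨q, rfl⟩
    · exact Set.mem_iUnion.2 ⟨b, Or.inl rfl⟩
    · exact Set.mem_iUnion.2 ⟨fun _ => false, Or.inr ⟨q, rfl⟩⟩)
  refine t.finite_toSet.subset fun b hb => ?_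
  obtain ⟨b', hb', h⟩ := Set.mem_iUnion₂.1 (ht hb)
  rcases h with h | ⟨q, h⟩
  · rw [br_inj.1 h]
    exact hb'
  · exact absurd h.symm (br_ne_nd _ _)

theorem finite_nodes {S : Set X} (hS : IsCompact S) :
    {q | nd q ∈ S ∧ ∀ b, br b ∈ S → ∀ n, q ≠ a b n}.Finite := by
  obtain ⟨t, ht⟩ := hS.elim_finite_subcover (fun q : Option (List Bool) => match q with
      | none => {x | ∃ b, br b ∈ S ∧ (x = br b ∨ ∃ n, x = nd (a b n))}
      | some q => {nd q}) (by
    rintro (_ | q)
    · rw [isOpen_iff]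
      rintro b ⟨b', hb', h | ⟨n, h⟩⟩
      · rw [br_inj] at h
        subst h
        exact Filter.Eventually.of_forall fun n => ⟨b, hb', Or.inr ⟨n, rfl⟩⟩
      · exact absurd h (br_ne_nd _ _)
    · rw [isOpen_iff]
      intro b hb
      exact absurd hb (br_ne_nd _ _)) (by
    intro x hx
    rcases X.cases x with ⟨b, rfl⟩ | ⟨q, rfl⟩
    · exact Set.mem_iUnion.2 ⟨none, b, hx, Or.inl rfl⟩
    · exact Set.mem_iUnion.2 ⟨some q, rfl⟩)
  refine ((t.finite_toSet.preimage (Option.some_injective _).injOn)).subset ?_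
  rintro q ⟨hq, hqb⟩
  obtain ⟨c, hc, h⟩ := Set.mem_iUnion₂.1 (ht hq)
  rcases c with _ | q'
  · obtain ⟨b, hb, h | ⟨n, h⟩⟩ := h
    · exact absurd h.symm (br_ne_nd _ _)
    · exact absurd (nd_inj.1 h) (hqb b hb n)
  · have : q = q' := nd_inj.1 h
    rw [this]
    exact hc

/-! ### The hyperspace is regular -/

/-- The map of `S(X)` into a Cantor cube. -/
noncomputable def Φ (S : HS X) (V : {V : Set X // IsClopen V}) : Bool :=
  open Classical in decide (S.1 ∩ V.1).Nonempty

theorem isInducing_Φ : IsInducing Φ := by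
  classical
  constructor
  apply le_antisymm
  · rw [← continuous_iff_le_induced]
    rw [continuous_pi_iff]
    intro V
    rw [continuous_bool_rng true]
    have h : (fun S : HS X => Φ S V) ⁻¹' {true} = {S : HS X | (S.1 ∩ V.1).Nonempty} := by
      ext S
      simp [Φ]
    rw [h]
    refine ⟨?_, isOpen_meets V.2.isOpen⟩
    rw [← isOpen_compl_iff]
    have h2 : {S : HS X | (S.1 ∩ V.1).Nonempty}ᶜ = {S : HS X | S.1 ⊆ V.1ᶜ} := by
      ext S
      change ¬ (S.1 ∩ V.1).Nonempty ↔ S.1 ⊆ V.1ᶜ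
      rw [Set.not_nonempty_iff_eq_empty, ← Set.disjoint_iff_inter_eq_empty,
        Set.subset_compl_iff_disjoint_right]
    rw [h2]
    exact isOpen_subset V.2.compl.isOpen
  · apply le_generateFrom
    rintro _ ⟨P, hP, hPo, rfl⟩
    have hc : ∀ V, @Continuous (HS X) Bool (TopologicalSpace.induced Φ inferInstance) _
        (fun S => Φ S V) := by
      intro V
      have h := @continuous_induced_dom (HS X) ({V : Set X // IsClopen V} → Bool) Φ inferInstance
      exact @Continuous.comp (HS X) _ Bool (TopologicalSpace.induced Φ inferInstance) _ _ _ _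
        (continuous_apply V) h
    have h1 : bracket P = {S : HS X | S.1 ⊆ ⋃₀ P} ∩ ⋂ A ∈ P, {S : HS X | (S.1 ∩ A).Nonempty} := by
      ext S
      simp only [Set.mem_inter_iff, Set.mem_iInter]
      rfl
    rw [h1]
    apply @IsOpen.inter _ (TopologicalSpace.induced Φ inferInstance)
    · have h2 : {S : HS X | S.1 ⊆ ⋃₀ P} =
          ⋃ V : {V : {V : Set X // IsClopen V} // V.1ᶜ ⊆ ⋃₀ P}, (fun S => Φ S V.1) ⁻¹' {false} := by
        ext S
        simp only [Set.mem_iUnion]
        constructor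
        · intro hS
          obtain ⟨V, hV, hSV, hVU⟩ := exists_clopen S.2.2.1 (finite_branches (isCompact_coe S))
            (isOpen_sUnion hPo) hS
          refine ⟨⟨⟨Vᶜ, hV.compl⟩, by simpa using hVU⟩, ?_⟩
          change decide (S.1 ∩ Vᶜ).Nonempty = false
          rw [decide_eq_false_iff_not, Set.not_nonempty_iff_eq_empty,
            ← Set.disjoint_iff_inter_eq_empty, ← Set.subset_compl_iff_disjoint_right, compl_compl]
          exact hSV
        · rintro ⟨V, hV⟩
          have hV : decide (S.1 ∩ V.1.1).Nonempty = false := hV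
          rw [decide_eq_false_iff_not, Set.not_nonempty_iff_eq_empty,
            ← Set.disjoint_iff_inter_eq_empty, ← Set.subset_compl_iff_disjoint_right] at hV
          exact hV.trans V.2
      rw [h2]
      refine @isOpen_iUnion _ _ (TopologicalSpace.induced Φ inferInstance) _ fun V => ?_
      exact @Continuous.isOpen_preimage _ _ (TopologicalSpace.induced Φ inferInstance) _ _
        (hc V.1) _ (isOpen_discrete {false})
    · refine @Set.Finite.isOpen_biInter _ _ (TopologicalSpace.induced Φ inferInstance) _ _ hP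
        fun A hA => ?_
      have h2 : {S : HS X | (S.1 ∩ A).Nonempty} =
          ⋃ V : {V : {V : Set X // IsClopen V} // V.1 ⊆ A}, (fun S => Φ S V.1) ⁻¹' {true} := by
        ext S
        simp only [Set.mem_iUnion]
        constructor
        · rintro ⟨x, hxS, hxA⟩
          obtain ⟨V, hV, hxV, hVA⟩ := exists_clopen_point (hPo A hA) hxA
          refine ⟨⟨⟨V, hV⟩, hVA⟩, ?_⟩
          change decide (S.1 ∩ V).Nonempty = true
          rw [decide_eq_true_iff]
          exact ⟨x, hxS, hxV⟩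
        · rintro ⟨V, hV⟩
          have hV : decide (S.1 ∩ V.1.1).Nonempty = true := hV
          rw [decide_eq_true_iff] at hV
          exact hV.mono (Set.inter_subset_inter_right _ V.2)
      rw [h2]
      refine @isOpen_iUnion _ _ (TopologicalSpace.induced Φ inferInstance) _ fun V => ?_
      exact @Continuous.isOpen_preimage _ _ (TopologicalSpace.induced Φ inferInstance) _ _
        (hc V.1) _ (isOpen_discrete {true})

theorem Φ_injective : Function.Injective Φ := by
  classical
  have key : ∀ S T : HS X, Φ S = Φ T → S.1 ⊆ T.1 := by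
    intro S T h x hx
    by_contra hxT
    obtain ⟨V, hV, hxV, hVT⟩ := exists_clopen_point T.2.2.1.isOpen_compl hxT
    have h1 : Φ S ⟨V, hV⟩ = true := decide_eq_true ⟨x, hx, hxV⟩
    rw [h] at h1
    obtain ⟨y, hy1, hy2⟩ := of_decide_eq_true h1
    exact hVT hy2 hy1
  intro S T h
  exact Subtype.ext (Set.Subset.antisymm (key S T h) (key T S h.symm))

theorem t3 : T3Space (HS X) := (IsEmbedding.mk isInducing_Φ Φ_injective).t3Space

/-! ### The network -/

/-- The members of the network. -/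
def Nw (D : Set (ℕ → Bool)) (E G : Finset (List Bool)) : Set (HS X) :=
  {S | {b | br b ∈ S.1} = D ∧ (∀ q ∈ E, nd q ∈ S.1 ↔ q ∈ G) ∧
    ∀ q, q ∉ E → nd q ∈ S.1 → ∃ b ∈ D, ∃ n, q = a b n}

open Classical in
theorem small (S : HS X) (O : Set (HS X)) (hO : IsOpen O) (hS : S ∈ O) :
    ∃ E₀ : Finset (List Bool), ∀ E : Finset (List Bool), E₀ ⊆ E →
      Nw {b | br b ∈ S.1} E (E.filter fun q => nd q ∈ S.1) ⊆ O := by
  induction hO with
  | basic O h =>
    obtain ⟨P, hP, hPo, rfl⟩ := h
    have hD := finite_branches (isCompact_coe S)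
    have hU : IsOpen (⋃₀ P) := isOpen_sUnion hPo
    have h1 : (⋃ b ∈ {b | br b ∈ S.1}, a b '' {n | nd (a b n) ∉ ⋃₀ P}).Finite := by
      refine hD.biUnion fun b hb => Set.Finite.image _ ?_
      have := (isOpen_iff _).1 hU b (hS.1 hb)
      rw [← Nat.cofinite_eq_atTop] at this
      exact this
    have h2 : ∀ A ∈ P, ∃ x, x ∈ S.1 ∩ A := fun A hA => hS.2 A hA
    obtain ⟨x₀, -⟩ := S.2.1
    have : Nonempty X := ⟨x₀⟩
    choose! x hx using h2
    have h3 : {q | ∃ A ∈ P, x A = nd q}.Finite := by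
      have : (x '' P).Finite := hP.image x
      refine (this.preimage (f := nd) (fun q _ q' _ h => nd_inj.1 h)).subset ?_
      rintro q ⟨A, hA, h⟩
      exact ⟨A, hA, h⟩
    refine ⟨h1.toFinset ∪ h3.toFinset, fun E hE => ?_⟩
    rintro T ⟨hT1, hT2, hT3⟩
    have hST : ∀ b, br b ∈ T.1 ↔ br b ∈ S.1 := fun b => Set.ext_iff.1 hT1 b
    constructor
    · intro y hy
      rcases X.cases y with ⟨b, rfl⟩ | ⟨q, rfl⟩
      · exact hS.1 ((hST b).1 hy)
      · by_cases hq : q ∈ E
        · exact hS.1 (Finset.mem_filter.1 ((hT2 q hq).1 hy)).2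
        · obtain ⟨b, hb, n, rfl⟩ := hT3 q hq hy
          by_contra hcon
          apply hq
          apply hE
          apply Finset.mem_union_left
          rw [Set.Finite.mem_toFinset]
          exact Set.mem_biUnion hb ⟨n, hcon, rfl⟩
    · intro A hA
      obtain ⟨hx1, hx2⟩ := hx A hA
      rcases X.cases (x A) with ⟨b, hb⟩ | ⟨q, hq⟩
      · rw [hb] at hx1 hx2
        exact ⟨br b, (hST b).2 hx1, hx2⟩
      · have hqE : q ∈ E := by
          apply hE
          apply Finset.mem_union_right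
          rw [Set.Finite.mem_toFinset]
          exact ⟨A, hA, hq⟩
        rw [hq] at hx1 hx2
        exact ⟨nd q, (hT2 q hqE).2 (Finset.mem_filter.2 ⟨hqE, hx1⟩), hx2⟩
  | univ => exact ⟨∅, fun E _ T _ => Set.mem_univ T⟩
  | inter O O' _ _ h1 h2 =>
    obtain ⟨E₁, hE₁⟩ := h1 hS.1
    obtain ⟨E₂, hE₂⟩ := h2 hS.2
    exact ⟨E₁ ∪ E₂, fun E hE => Set.subset_inter (hE₁ E (Finset.union_subset_left hE))
      (hE₂ E (Finset.union_subset_right hE))⟩
  | sUnion 𝒪 _ h =>
    obtain ⟨O, hO, hSO⟩ := hS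
    obtain ⟨E₁, hE₁⟩ := h O hO hSO
    exact ⟨E₁, fun E hE => (hE₁ E hE).trans (Set.subset_sUnion_of_mem hO)⟩

/-- The network. -/
def net (m : ℕ) : Set (Set (HS X)) :=
  {W | ∃ EG : Finset (List Bool) × Finset (List Bool), Encodable.encode EG = m ∧
    ∃ D, W = Nw D EG.1 EG.2}

theorem locFin_net (m : ℕ) : LocFin (net m) := by
  intro S
  have hD := finite_branches (isCompact_coe S)
  have hO : IsOpen {x : X | ∀ b, x = br b → br b ∈ S.1} := by
    rw [isOpen_iff]
    intro b _
    exact Filter.Eventually.of_forall fun n b' h => absurd h.symm (br_ne_nd _ _)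
  refine ⟨{T : HS X | T.1 ⊆ {x : X | ∀ b, x = br b → br b ∈ S.1}},
    (isOpen_subset hO).mem_nhds ?_, ?_⟩
  · intro x hx b hb
    exact hb ▸ hx
  · by_cases hm : ∃ EG : Finset (List Bool) × Finset (List Bool), Encodable.encode EG = m
    · obtain ⟨EG, hEG⟩ := hm
      refine (hD.finite_subsets.image fun D => Nw D EG.1 EG.2).subset ?_
      rintro W ⟨⟨EG', hEG', D, rfl⟩, T, hT1, hT2⟩
      have h1 : EG' = EG := Encodable.encode_injective (hEG'.trans hEG.symm)
      subst h1
      refine ⟨D, ?_, rfl⟩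
      intro b hb
      have hbT : br b ∈ T.1 := by
        have h2 : b ∈ {b | br b ∈ T.1} := hT1.1 ▸ hb
        exact h2
      exact hT2 hbT b rfl
    · refine Set.finite_empty.subset ?_
      rintro W ⟨⟨EG, hEG, -⟩, -⟩
      exact hm ⟨EG, hEG⟩

theorem isNetwork_net : IsNetwork (⋃ m, net m) := by
  classical
  intro S O hO hS
  obtain ⟨E₀, hE₀⟩ := small S O hO hS
  have hF := finite_nodes (isCompact_coe S)
  refine ⟨_, ?_, ?_, hE₀ (E₀ ∪ hF.toFinset) Finset.subset_union_left⟩
  · exact Set.mem_iUnion.2 ⟨_, (_, _), rfl, _, rfl⟩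
  · refine ⟨rfl, ?_, ?_⟩
    · intro q hq
      simp only [Finset.mem_filter, hq, true_and]
    · intro q hq hqS
      by_contra hcon
      push Not at hcon
      apply hq
      apply Finset.mem_union_right
      rw [Set.Finite.mem_toFinset]
      exact ⟨hqS, fun b hb n => hcon b hb n⟩

theorem sigma : IsSigmaSpace (HS X) := ⟨t3, net, locFin_net, isNetwork_net⟩

/-! ### There is no `σ`-locally finite `k`-network -/

/-- The compact open set consisting of a branch and its nodes. -/
def KK (b : ℕ → Bool) : Set X := insert (br b) (Set.range fun n => nd (a b n))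

theorem tendsto_nodes (b : ℕ → Bool) : Tendsto (fun n => nd (a b n)) atTop (𝓝 (br b)) := by
  rw [tendsto_nhds]
  intro U hU hb
  exact (isOpen_iff _).1 hU b hb

theorem isOpen_KK (b : ℕ → Bool) : IsOpen (KK b) := by
  rw [isOpen_iff]
  intro b' hb'
  rcases hb' with h | ⟨n, h⟩
  · rw [br_inj] at h
    subst h
    exact Filter.Eventually.of_forall fun n => Or.inr ⟨n, rfl⟩
  · exact absurd h.symm (br_ne_nd _ _)

theorem not_aleph : ¬ IsAlephSpace (HS X) := by
  rintro ⟨-, P, hP, hk⟩
  have key : ∀ b : ℕ → Bool, ∃ m, ∃ W ∈ P m, W ⊆ {S : HS X | S.1 ⊆ KK b} ∧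
      {n | sing (nd (a b n)) ∈ W}.Infinite := by
    intro b
    obtain ⟨F, hFP, hF, h1, h2⟩ := hk (sing '' KK b) {S : HS X | S.1 ⊆ KK b}
      ((tendsto_nodes b).isCompact_insert_range.image continuous_sing)
      (isOpen_subset (isOpen_KK b)) (by
      rintro _ ⟨x, hx, rfl⟩
      exact Set.singleton_subset_iff.2 hx)
    by_contra hcon
    push Not at hcon
    have h3 : (⋃ W ∈ F, {n | sing (nd (a b n)) ∈ W}).Finite := by
      refine hF.biUnion fun W hW => ?_
      obtain ⟨m, hm⟩ := Set.mem_iUnion.1 (hFP hW)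
      by_contra h4
      exact h4 (by
        have := hcon m W hm ((Set.subset_sUnion_of_mem hW).trans h2)
        simpa using this)
    apply Set.infinite_univ (α := ℕ)
    refine h3.subset fun n _ => ?_
    obtain ⟨W, hW, hnW⟩ := h1 ⟨nd (a b n), Or.inr ⟨n, rfl⟩, rfl⟩
    exact Set.mem_biUnion hW hnW
  choose m W hW hWK hWinf using key
  choose n hn using fun b => (hWinf b).nonempty
  -- an infinite fibre
  obtain ⟨c, hc⟩ : ∃ c : ℕ × List Bool, {b | (m b, a b (n b)) = c}.Infinite := by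
    by_contra hcon
    push Not at hcon
    have h1 : (⋃ c : ℕ × List Bool, {b | (m b, a b (n b)) = c}).Countable :=
      Set.countable_iUnion fun c => (hcon c).countable
    have h2 : (⋃ c : ℕ × List Bool, {b | (m b, a b (n b)) = c}) = Set.univ :=
      Set.eq_univ_of_forall fun b => Set.mem_iUnion.2 ⟨_, rfl⟩
    rw [h2] at h1
    have : Uncountable (ℕ → Bool) := by
      rw [← Cardinal.aleph0_lt_mk_iff]
      simp [Cardinal.aleph0_lt_continuum]
    exact Set.not_countable_univ h1
  obtain ⟨m₀, q₀⟩ := c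
  obtain ⟨U, hU, hfin⟩ := hP m₀ (sing (nd q₀))
  have hmaps : Set.MapsTo W {b | (m b, a b (n b)) = (m₀, q₀)} {A ∈ P m₀ | (A ∩ U).Nonempty} := by
    intro b hb
    have h1 : m b = m₀ := congrArg Prod.fst hb
    have h2 : a b (n b) = q₀ := congrArg Prod.snd hb
    refine ⟨h1 ▸ hW b, sing (nd q₀), ?_, mem_of_mem_nhds hU⟩
    have h3 : sing (nd (a b (n b))) ∈ W b := hn b
    rwa [h2] at h3
  obtain ⟨b, hb, b', hb', hne, heq⟩ := hc.exists_ne_map_eq_of_mapsTo hmaps hfin
  have h1 := ad hne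
  rw [← Nat.cofinite_eq_atTop, Filter.eventually_cofinite] at h1
  apply hWinf b
  refine h1.subset ?_
  intro k hk hcon
  have h2 : sing (nd (a b k)) ∈ W b' := heq ▸ hk
  have h3 := hWK b' h2
  have h4 : nd (a b k) ∈ KK b' := h3 rfl
  rcases h4 with h | ⟨j, h⟩
  · exact br_ne_nd _ _ h.symm
  · exact hcon j (nd_inj.1 h).symm

/-- There is a Hausdorff space `X` such that `S(X)` is a `σ`-space and not an `ℵ`-space. -/
theorem result : ∃ (X : Type) (_ : TopologicalSpace X), T2Space X ∧ IsSigmaSpace (HS X) ∧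
    ¬ IsAlephSpace (HS X) :=
  ⟨X, inferInstance, inferInstance, sigma, not_aleph⟩

end Pool.Agent.Results.MP_81fb9f_gt.NotAleph
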